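import Mathlib
import Pool.Agent.N251.GA.Base
import Pool.Agent.N251.GA.Leaves2

/-!
# Project GA2 (helper251): abc implies the inequality for `t (s² - m t²)` (helper835)
-/

set_option autoImplicit false

namespace Pool.Agent.N835.GA.SymFwd

open Pool.Agent.N251.GA

/-- **GA2/SYMFWD** -/
theorem t : LeafSymFwd := by
  intro R _ D m N hm hL
  have := isDomain D
  have := charZero D
  have hmR : (m : R) ≠ 0 := by exact_mod_cast hm
  have hm1 : (1 : ℝ) ≤ |(m : ℝ)| := by
    have : (1 : ℤ) ≤ |m| := Int.one_le_abs hm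
    exact_mod_cast this
  have hσm : ∀ i, ‖D.σ i (m : R)‖ = |(m : ℝ)| := by
    intro i
    rw [map_intCast]
    have : ((m : ℤ) : ℂ) = ((m : ℝ) : ℂ) := by push_cast; rfl
    rw [this, Complex.norm_real, Real.norm_eq_abs]
  refine transfer D 2 1 |(m : ℝ)| hm1 one_pos (by norm_num)
    (fun s _ i => (norm_nonneg _).trans (le_max_left _ _))
    (fun s hs => le_norm_prod D hs.2.2.1 fun i => le_max_right _ _)
    (fun s hs => mul_ne_zero hs.2.2.1 (sub_ne_zero.2 hs.2.2.2.1)) ?_ hL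
  rintro ⟨s, t⟩ ⟨hst, hsm, ht0, hne, -⟩
  simp only at hst hsm ht0 hne
  by_cases hs0 : s = 0
  · left
    subst hs0
    have hu : IsUnit t := isCoprime_zero_left.1 hst
    have h1 := norm_unit D hu
    have h2 : (∏ i, max ‖D.σ i (0 : R)‖ ‖D.σ i t‖) = 1 := by
      rw [← h1]
      refine Finset.prod_congr rfl fun i _ => ?_
      rw [map_zero, norm_zero]
      exact max_eq_right (norm_nonneg _)
    show (∏ i, max ‖D.σ i (0 : R)‖ ‖D.σ i t‖) ≤ |(m : ℝ)|
    rw [h2]
    exact hm1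
  · right
    have hd : s ^ 2 - m * t ^ 2 ≠ 0 := sub_ne_zero.2 hne
    refine ⟨(s ^ 2, -(m * t ^ 2), m * t ^ 2 - s ^ 2), ⟨⟨?_, ?_, pow_ne_zero _ hs0,
      neg_ne_zero.2 (mul_ne_zero hmR (pow_ne_zero _ ht0)), sub_ne_zero.2 (Ne.symm hne)⟩, trivial⟩,
      ?_, s * m, mul_ne_zero hs0 hmR, ?_, ?_, 2, ?_⟩
    · have h1 : IsCoprime s (m * t ^ 2) := hsm.mul_right hst.pow_right
      exact (h1.pow_left).neg_right
    · simp only
      ring
    · intro i
      simp only
      have h1 := ht_ge1 D (s ^ 2, -(m * t ^ 2), m * t ^ 2 - s ^ 2) i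
      have h2 := ht_ge2 D (s ^ 2, -(m * t ^ 2), m * t ^ 2 - s ^ 2) i
      have h0 := ht_nonneg D (s ^ 2, -(m * t ^ 2), m * t ^ 2 - s ^ 2) i
      simp only at h1 h2
      rw [map_pow, norm_pow] at h1
      rw [map_neg, norm_neg, map_mul, map_pow, norm_mul, norm_pow, hσm] at h2
      have h3 : max ‖D.σ i s‖ ‖D.σ i t‖ ^ 2 ≤
          ht D (s ^ 2, -(m * t ^ 2), m * t ^ 2 - s ^ 2) i := by
        rcases max_cases ‖D.σ i s‖ ‖D.σ i t‖ with ⟨h4, -⟩ | ⟨h4, -⟩
        · rw [h4]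
          exact h1
        · rw [h4]
          refine le_trans ?_ h2
          exact le_mul_of_one_le_left (by positivity) hm1
      exact h3.trans (le_mul_of_one_le_left h0 hm1)
    · exact mul_ne_zero (mul_ne_zero ht0 hd) (mul_ne_zero hs0 hmR)
    · intro i
      rw [Real.rpow_one, map_mul, norm_mul, hσm, mul_comm]
      exact mul_le_mul_of_nonneg_left (le_max_left _ _) (by positivity)
    · refine ⟨m * (s ^ 2 - m * t ^ 2), ?_⟩
      simp only
      ring

end Pool.Agent.N835.GA.SymFwd
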